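import Pool.Agent.W477.CN.Defs

/-! Project CN, part CN-ADD. -/

set_option autoImplicit false

namespace W477.CN.H209

open W477.CN Set

/-- A permutation of the natural numbers that maps m to m + N for all m less than n. -/
def sh (n N : ℕ) : Equiv.Perm ℕ where
  toFun m := if m < n then m + N else if m < n + N then m - n else m
  invFun m := if m < N then m + n else if m < n + N then m - N else m
  left_inv := by
    intro m
    dsimp only
    split_ifs <;> omega
  right_inv := by
    intro m
    dsimp only
    split_ifs <;> omega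

theorem sh_lt (n N m : ℕ) (h : m < n) : sh n N m = m + N := by
  show (if m < n then m + N else if m < n + N then m - n else m) = m + N
  rw [if_pos h]

theorem add_holds (_h : P_star) : P_add := by
  intro X G _ _ 𝒜 _hA _hI
  refine ⟨?_, ?_⟩
  · rintro A A' B B' hAB hAB' ⟨ι, hι, P, g, h1, h2, h3, h4, h5⟩ ⟨κ, hκ, Q, k, h6, h7, h8, h9, h10⟩
    have hP : ∀ i, P i ⊆ A := fun i => h3 ▸ subset_iUnion P i
    have hQ : ∀ i, Q i ⊆ B := fun i => h8 ▸ subset_iUnion Q i
    have hP' : ∀ i, act (g i) '' P i ⊆ A' := fun i => h5 ▸ subset_iUnion (fun i => act (g i) '' P i) i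
    have hQ' : ∀ i, act (k i) '' Q i ⊆ B' := fun i => h10 ▸ subset_iUnion (fun i => act (k i) '' Q i) i
    refine ⟨ι ⊕ κ, inferInstance, Sum.elim P Q, Sum.elim g k, ?_, ?_, ?_, ?_, ?_⟩
    · rintro (i | i)
      · exact h1 i
      · exact h6 i
    · rintro (i | i) (j | j) hij
      · exact h2 i j fun e => hij (congrArg _ e)
      · exact hAB.mono (hP i) (hQ j)
      · exact (hAB.mono (hP j) (hQ i)).symm
      · exact h7 i j fun e => hij (congrArg _ e)
    · rw [iUnion_sum]
      simp only [Sum.elim_inl, Sum.elim_inr]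
      rw [h3, h8]
    · rintro (i | i) (j | j) hij
      · exact h4 i j fun e => hij (congrArg _ e)
      · exact hAB'.mono (hP' i) (hQ' j)
      · exact (hAB'.mono (hP' j) (hQ' i)).symm
      · exact h9 i j fun e => hij (congrArg _ e)
    · rw [iUnion_sum]
      simp only [Sum.elim_inl, Sum.elim_inr]
      rw [h5, h10]
  · intro A hAs N
    obtain ⟨n, f, hf, e⟩ := hAs
    have hlt : ∀ p ∈ A, p.2 < n := by
      intro p hp
      rw [e] at hp
      exact hp.1
    have himg : act ((1 : G), sh n N) '' A = shift N A := by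
      ext p
      constructor
      · rintro ⟨q, hq, rfl⟩
        refine ⟨q, hq, ?_⟩
        unfold act
        simp only [one_smul, sh_lt n N q.2 (hlt q hq)]
      · rintro ⟨q, hq, rfl⟩
        refine ⟨q, hq, ?_⟩
        unfold act
        simp only [one_smul, sh_lt n N q.2 (hlt q hq)]
    refine ⟨Unit, inferInstance, fun _ => A, fun _ => ((1 : G), sh n N), fun _ => ⟨n, f, hf, e⟩,
      fun i j hij => absurd (Subsingleton.elim i j) hij, ?_,
      fun i j hij => absurd (Subsingleton.elim i j) hij, ?_⟩
    · exact iUnion_const A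
    · rw [iUnion_const, himg]

end W477.CN.H209
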